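import Mathlib
import Pool.Agent.Helper71.SE.Zero
import Pool.Agent.Helper83.EW.NoPoints

/-!
Sections of the pencil `Y ^ 2 = X ^ 3 + a H ^ e4 X + b H ^ e6` over the affine line, with `H` a
product of `m` linear factors, with prescribed value at the origin.
-/

set_option autoImplicit false

namespace Pool.Agent.Helper94.EW

open Polynomial

universe u

section Explicit

variable {R : Type*} [CommRing R]

/-- `x + a₁ s + a₂ s²` -/
noncomputable def PX (x a1 a2 : R) : R[X] := C x + C a1 * X + C a2 * X ^ 2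

/-- `y + b₁ s + b₂ s² + b₃ s³` -/
noncomputable def PY (y b1 b2 b3 : R) : R[X] := C y + C b1 * X + C b2 * X ^ 2 + C b3 * X ^ 3

/-- first coefficient of the square root; `w = 1 / (2 y)` -/
def B1 (w x a1 h1 : R) : R := w * (3 * x ^ 2 * a1 + h1)

/-- second coefficient of the square root -/
def B2 (w x a1 a2 h1 h2 : R) : R := w * (3 * x ^ 2 * a2 + 3 * x * a1 ^ 2 + h2 - B1 w x a1 h1 ^ 2)

/-- third coefficient of the square root -/
def B3 (w x a1 a2 h1 h2 h3 : R) : R :=
  w * (6 * x * a1 * a2 + a1 ^ 3 + h3 - 2 * B1 w x a1 h1 * B2 w x a1 a2 h1 h2)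

/-- coefficient of `s⁴` -/
def E4 (w x a1 a2 h1 h2 h3 h4 : R) : R :=
  2 * B1 w x a1 h1 * B3 w x a1 a2 h1 h2 h3 + B2 w x a1 a2 h1 h2 ^ 2 -
    (3 * x * a2 ^ 2 + 3 * a1 ^ 2 * a2) - h4

/-- coefficient of `s⁵` -/
def E5 (w x a1 a2 h1 h2 h3 h5 : R) : R :=
  2 * B2 w x a1 a2 h1 h2 * B3 w x a1 a2 h1 h2 h3 - 3 * a1 * a2 ^ 2 - h5

/-- coefficient of `s⁶` -/
def E6 (w x a1 a2 h1 h2 h3 h6 : R) : R :=
  B3 w x a1 a2 h1 h2 h3 ^ 2 - a2 ^ 3 - h6

theorem key_identity (w x y a1 a2 h0 h1 h2 h3 h4 h5 h6 : R) (hw : 2 * y * w = 1)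
    (hxy : y ^ 2 = x ^ 3 + h0)
    (e4 : E4 w x a1 a2 h1 h2 h3 h4 = 0) (e5 : E5 w x a1 a2 h1 h2 h3 h5 = 0)
    (e6 : E6 w x a1 a2 h1 h2 h3 h6 = 0) :
    PY y (B1 w x a1 h1) (B2 w x a1 a2 h1 h2) (B3 w x a1 a2 h1 h2 h3) ^ 2 = PX x a1 a2 ^ 3 +
      (C h0 + C h1 * X + C h2 * X ^ 2 + C h3 * X ^ 3 + C h4 * X ^ 4 + C h5 * X ^ 5 +
        C h6 * X ^ 6) := by
  have k1 : 2 * y * B1 w x a1 h1 = 3 * x ^ 2 * a1 + h1 := by
    rw [B1]
    linear_combination (3 * x ^ 2 * a1 + h1) * hw
  have k2 : 2 * y * B2 w x a1 a2 h1 h2 + B1 w x a1 h1 ^ 2 =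
      3 * x ^ 2 * a2 + 3 * x * a1 ^ 2 + h2 := by
    rw [B2]
    linear_combination (3 * x ^ 2 * a2 + 3 * x * a1 ^ 2 + h2 - B1 w x a1 h1 ^ 2) * hw
  have k3 : 2 * y * B3 w x a1 a2 h1 h2 h3 + 2 * B1 w x a1 h1 * B2 w x a1 a2 h1 h2 =
      6 * x * a1 * a2 + a1 ^ 3 + h3 := by
    rw [B3]
    linear_combination (6 * x * a1 * a2 + a1 ^ 3 + h3 -
      2 * B1 w x a1 h1 * B2 w x a1 a2 h1 h2) * hw
  have k4 := e4
  have k5 := e5
  have k6 := e6
  unfold E4 at k4
  unfold E5 at k5
  unfold E6 at k6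
  generalize B1 w x a1 h1 = b1 at k1 k2 k3 k4 k5 k6 ⊢
  generalize B2 w x a1 a2 h1 h2 = b2 at k2 k3 k4 k5 k6 ⊢
  generalize B3 w x a1 a2 h1 h2 h3 = b3 at k3 k4 k5 k6 ⊢
  have c0 := congrArg (C : R → R[X]) hxy
  have c1 := congrArg (C : R → R[X]) k1
  have c2 := congrArg (C : R → R[X]) k2
  have c3 := congrArg (C : R → R[X]) k3
  have c4 := congrArg (C : R → R[X]) k4
  have c5 := congrArg (C : R → R[X]) k5
  have c6 := congrArg (C : R → R[X]) k6
  simp only [map_mul, map_add, map_sub, map_pow, map_zero, map_ofNat] at c0 c1 c2 c3 c4 c5 c6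
  unfold PX PY
  linear_combination c0 + c1 * X + c2 * X ^ 2 + c3 * X ^ 3 + c4 * X ^ 4 + c5 * X ^ 5 + c6 * X ^ 6

/-- product of linear factors -/
noncomputable def HH {m : ℕ} (μ : Fin m → R) : R[X] := ∏ i, (1 + C (μ i) * X)

theorem HH_map {S : Type*} [CommRing S] (φ : R →+* S) {m : ℕ} (μ : Fin m → R) :
    (HH μ).map φ = HH (fun i => φ (μ i)) := by
  simp [HH, Polynomial.map_prod]

theorem HH_natDegree_le {m : ℕ} (μ : Fin m → R) : (HH μ).natDegree ≤ m := by
  unfold HH
  refine (natDegree_prod_le _ _).trans ?_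
  refine (Finset.sum_le_sum (g := fun _ => 1) fun i _ => ?_).trans (by simp)
  refine (natDegree_add_le _ _).trans ?_
  rw [natDegree_one, Nat.zero_max]
  exact (natDegree_C_mul_le _ _).trans natDegree_X_le

theorem HH_eval_zero {m : ℕ} (μ : Fin m → R) : (HH μ).eval 0 = 1 := by
  rw [HH, eval_prod]
  simp

/-- the terms of lower degree in `X` -/
noncomputable def RR (a b x a1 a2 : R) (e4 e6 : ℕ) {m : ℕ} (μ : Fin m → R) : R[X] :=
  C a * HH μ ^ e4 * PX x a1 a2 + C b * HH μ ^ e6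

theorem RR_map {S : Type*} [CommRing S] (φ : R →+* S) (a b x a1 a2 : R) (e4 e6 : ℕ) {m : ℕ}
    (μ : Fin m → R) : (RR a b x a1 a2 e4 e6 μ).map φ =
      RR (φ a) (φ b) (φ x) (φ a1) (φ a2) e4 e6 (fun i => φ (μ i)) := by
  simp only [RR, PX, Polynomial.map_add, Polynomial.map_mul, Polynomial.map_pow, map_C, map_X,
    HH_map]

theorem RR_natDegree_le (a b x a1 a2 : R) {e4 e6 m : ℕ} (h4 : a = 0 ∨ m * e4 = 4)
    (h6 : b = 0 ∨ m * e6 = 6) (μ : Fin m → R) : (RR a b x a1 a2 e4 e6 μ).natDegree ≤ 6 := by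
  unfold RR
  refine (natDegree_add_le _ _).trans (max_le ?_ ?_)
  · rcases h4 with rfl | h4
    · simp
    · refine natDegree_mul_le.trans ?_
      have h1 : (PX x a1 a2).natDegree ≤ 2 := by
        unfold PX
        compute_degree
      have h2 : (C a * HH μ ^ e4).natDegree ≤ 4 := by
        refine (natDegree_C_mul_le _ _).trans (natDegree_pow_le.trans ?_)
        rw [← h4, mul_comm]
        exact Nat.mul_le_mul_right _ (HH_natDegree_le μ)
      omega
  · rcases h6 with rfl | h6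
    · simp
    · refine (natDegree_C_mul_le _ _).trans (natDegree_pow_le.trans ?_)
      rw [← h6, mul_comm]
      exact Nat.mul_le_mul_right _ (HH_natDegree_le μ)

theorem RR_eval_zero (a b x a1 a2 : R) (e4 e6 : ℕ) {m : ℕ} (μ : Fin m → R) :
    (RR a b x a1 a2 e4 e6 μ).eval 0 = a * x + b := by
  unfold RR PX
  simp [HH_eval_zero]

theorem expand6 {P : R[X]} (h : P.natDegree ≤ 6) :
    P = C (P.eval 0) + C (P.coeff 1) * X + C (P.coeff 2) * X ^ 2 + C (P.coeff 3) * X ^ 3 +
      C (P.coeff 4) * X ^ 4 + C (P.coeff 5) * X ^ 5 + C (P.coeff 6) * X ^ 6 := by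
  rw [← coeff_zero_eq_eval_zero]
  conv_lhs => rw [P.as_sum_range_C_mul_X_pow' (n := 7) (by omega)]
  simp only [Finset.sum_range_succ, Finset.sum_range_zero]
  simp

end Explicit

section Const

variable {k : Type u} [Field k] [IsAlgClosed k] [CharZero k] {a b : k}

theorem const_of_eq (hE : 4 * a ^ 3 + 27 * b ^ 2 ≠ 0) {A B : k[X]}
    (h : B ^ 2 = A ^ 3 + C a * A + C b) : ∃ x0 y0 : k, A = C x0 ∧ B = C y0 := by
  obtain ⟨x0, y0, hx, hy⟩ := Helper83.EW.no_points hE (algebraMap k[X] (RatFunc k) A)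
    (algebraMap k[X] (RatFunc k) B) (by
      have := congrArg (algebraMap k[X] (RatFunc k)) h
      simpa only [map_add, map_mul, map_pow, RatFunc.algebraMap_C] using this)
  refine ⟨x0, y0, ?_, ?_⟩
  · apply IsFractionRing.injective k[X] (RatFunc k)
    rw [hx, RatFunc.algebraMap_C]
  · apply IsFractionRing.injective k[X] (RatFunc k)
    rw [hy, RatFunc.algebraMap_C]

theorem const_of_eq' (hE : 4 * a ^ 3 + 27 * b ^ 2 ≠ 0) {m e4 e6 : ℕ} (hm : Even m)
    (h4 : a = 0 ∨ m * e4 = 4) (h6 : b = 0 ∨ m * e6 = 6) {A B : k[X]} {κ : k}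
    (h : B ^ 2 = A ^ 3 + C a * (1 + C κ * X) ^ e4 * A + C b * (1 + C κ * X) ^ e6)
    (hB : B.eval 0 ≠ 0) : κ = 0 := by
  by_contra hk
  set S : k[X] := C κ⁻¹ * (X ^ m - 1) with hS
  have hks : 1 + C κ * S = X ^ m := by
    rw [hS, ← mul_assoc, ← C_mul, mul_inv_cancel₀ hk]; simp
  have hcomp : (B.comp S) ^ 2 = (A.comp S) ^ 3 + C a * (X ^ m) ^ e4 * A.comp S +
      C b * (X ^ m) ^ e6 := by
    have := congrArg (fun P : k[X] => P.comp S) h
    simp only [pow_comp, add_comp, mul_comp, one_comp, C_comp, X_comp] at this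
    rw [this, hks]
  have hcomp' : (B.comp S) ^ 2 = (A.comp S) ^ 3 + C a * X ^ 4 * A.comp S + C b * X ^ 6 := by
    rw [hcomp, ← pow_mul, ← pow_mul]
    congr 1
    · congr 1
      rcases h4 with h4 | h4
      · rw [h4]; simp
      · rw [h4]
    · rcases h6 with h6 | h6
      · rw [h6]; simp
      · rw [h6]
  set θ : RatFunc k := algebraMap k[X] (RatFunc k) X with hθ
  have hθ0 : θ ≠ 0 := by
    rw [hθ, Ne, map_eq_zero_iff _ (IsFractionRing.injective k[X] (RatFunc k))]
    exact X_ne_zero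
  obtain ⟨x0, y0, hx, hy⟩ := Helper83.EW.no_points hE
    (algebraMap k[X] (RatFunc k) (A.comp S) / θ ^ 2)
    (algebraMap k[X] (RatFunc k) (B.comp S) / θ ^ 3) (by
      have := congrArg (algebraMap k[X] (RatFunc k)) hcomp'
      simp only [map_add, map_mul, map_pow, RatFunc.algebraMap_C] at this
      rw [← hθ] at this
      rw [div_pow, div_pow]
      field_simp
      linear_combination this)
  have hB2 : B.comp S = C y0 * X ^ 3 := by
    apply IsFractionRing.injective k[X] (RatFunc k)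
    rw [div_eq_iff (pow_ne_zero 3 hθ0)] at hy
    rw [hy, map_mul, map_pow, RatFunc.algebraMap_C]
  have hS1 : S.eval 1 = 0 := by simp [hS]
  have hS2 : S.eval (-1) = 0 := by simp [hS, hm.neg_pow]
  have e1 : B.eval 0 = y0 := by
    have := congrArg (fun P : k[X] => P.eval 1) hB2
    simpa [eval_comp, hS1] using this
  have e2 : B.eval 0 = -y0 := by
    have := congrArg (fun P : k[X] => P.eval (-1)) hB2
    simp only [eval_comp, hS2, eval_mul, eval_C, eval_pow, eval_X] at this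
    rw [this]; ring
  apply hB
  have h2 : (2 : k) * y0 = 0 := by linear_combination e1 * (-1) + e2
  rw [e1]
  exact (mul_eq_zero.mp h2).resolve_left two_ne_zero

end Const

section Main

variable {k : Type u} [Field k] [IsAlgClosed k] [CharZero k] {a b : k}

/-- Sections with prescribed values at the origin, the linear factors being given by linear forms
in `N` parameters, except for one of them, which is free. -/
theorem exists_sections (hE : 4 * a ^ 3 + 27 * b ^ 2 ≠ 0) {m e4 e6 : ℕ} (hm : Even m)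
    (h4 : a = 0 ∨ m * e4 = 4) (h6 : b = 0 ∨ m * e6 = 6)
    {ι : Type} [Fintype ι] [DecidableEq ι] (i0 : ι) (s0 : Fin m) (x y : ι → k)
    (hxy : ∀ i, y i ^ 2 = x i ^ 3 + a * x i + b) (hy : ∀ i, y i ≠ 0)
    (l : ι → Fin m → (ι → k) →ₗ[k] k) :
    ∃ (q : ι → k) (κ : k) (A B : ι → k[X]), q ≠ 0 ∧
      (∀ i, (A i).eval 0 = x i ∧ (B i).eval 0 = y i) ∧
      ∀ i, B i ^ 2 = A i ^ 3 +
        C a * HH (fun s => if i = i0 ∧ s = s0 then κ else l i s q) ^ e4 * A i +
        C b * HH (fun s => if i = i0 ∧ s = s0 then κ else l i s q) ^ e6 := by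
  classical
  -- the unknowns: `none` is `κ`, `inl i` is `q i`, `inr (i, ε)` is the coefficient of `A i`
  let σ := Option (ι ⊕ (ι × Fin 2))
  let R := MvPolynomial σ k
  let c : k → R := fun t => MvPolynomial.C t
  let lp : ι → Fin m → R := fun i s =>
    ∑ j, MvPolynomial.C (l i s (Pi.single j 1)) * MvPolynomial.X (some (Sum.inl j))
  let mp : ι → Fin m → R := fun i s =>
    if i = i0 ∧ s = s0 then MvPolynomial.X none else lp i s
  let w : ι → R := fun i => c ((2 * y i)⁻¹)
  let u1 : ι → R := fun i => MvPolynomial.X (some (Sum.inr (i, 0)))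
  let u2 : ι → R := fun i => MvPolynomial.X (some (Sum.inr (i, 1)))
  let hp : ι → ℕ → R := fun i n => (RR (c a) (c b) (c (x i)) (u1 i) (u2 i) e4 e6 (mp i)).coeff n
  let eqs : ι × Fin 3 → R := fun p =>
    if p.2 = 0 then E4 (w p.1) (c (x p.1)) (u1 p.1) (u2 p.1) (hp p.1 1) (hp p.1 2) (hp p.1 3)
      (hp p.1 4)
    else if p.2 = 1 then E5 (w p.1) (c (x p.1)) (u1 p.1) (u2 p.1) (hp p.1 1) (hp p.1 2)
      (hp p.1 3) (hp p.1 5)
    else E6 (w p.1) (c (x p.1)) (u1 p.1) (u2 p.1) (hp p.1 1) (hp p.1 2) (hp p.1 3) (hp p.1 6)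
  -- evaluation
  have evl : ∀ (v : σ → k) (i : ι) (s : Fin m), MvPolynomial.eval v (lp i s) =
      l i s (fun j => v (some (Sum.inl j))) := by
    intro v i s
    simp only [lp, map_sum, map_mul, MvPolynomial.eval_C, MvPolynomial.eval_X]
    have h1 : (fun j => v (some (Sum.inl j))) =
        ∑ j, v (some (Sum.inl j)) • (Pi.single j (1 : k) : ι → k) := by
      ext t
      simp [Finset.sum_apply, Pi.single_apply]
    rw [h1, map_sum]
    refine Finset.sum_congr rfl fun j _ => ?_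
    rw [map_smul, smul_eq_mul, mul_comm]
  have evm : ∀ (v : σ → k) (i : ι), (fun s => MvPolynomial.eval v (mp i s)) =
      fun s => if i = i0 ∧ s = s0 then v none else l i s (fun j => v (some (Sum.inl j))) := by
    intro v i
    ext s
    simp only [mp]
    split_ifs with h
    · simp
    · exact evl v i s
  have ev1 : ∀ (v : σ → k) (i : ι), MvPolynomial.eval v (u1 i) = v (some (Sum.inr (i, 0))) := by
    intro v i; simp [u1]
  have ev2 : ∀ (v : σ → k) (i : ι), MvPolynomial.eval v (u2 i) = v (some (Sum.inr (i, 1))) := by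
    intro v i; simp [u2]
  have evw : ∀ (v : σ → k) (i : ι), MvPolynomial.eval v (w i) = (2 * y i)⁻¹ := by
    intro v i; simp [w, c]
  have evc : ∀ (v : σ → k) (t : k), MvPolynomial.eval v (c t) = t := by
    intro v i; simp [c]
  let Rv : (σ → k) → ι → k[X] := fun v i =>
    RR a b (x i) (v (some (Sum.inr (i, 0)))) (v (some (Sum.inr (i, 1)))) e4 e6
      (fun s => if i = i0 ∧ s = s0 then v none else l i s (fun j => v (some (Sum.inl j))))
  let hv : (σ → k) → ι → ℕ → k := fun v i n => (Rv v i).coeff n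
  have evh : ∀ (v : σ → k) (i : ι) (n : ℕ), MvPolynomial.eval v (hp i n) = hv v i n := by
    intro v i n
    simp only [hp, hv, Rv]
    rw [← evm v i, ← coeff_map, RR_map, evc, evc, evc, ev1, ev2]
  have evE : ∀ (v : σ → k) (i : ι),
      (MvPolynomial.eval v (eqs (i, 0)) = E4 (2 * y i)⁻¹ (x i) (v (some (Sum.inr (i, 0))))
        (v (some (Sum.inr (i, 1)))) (hv v i 1) (hv v i 2) (hv v i 3) (hv v i 4)) ∧
      (MvPolynomial.eval v (eqs (i, 1)) = E5 (2 * y i)⁻¹ (x i) (v (some (Sum.inr (i, 0))))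
        (v (some (Sum.inr (i, 1)))) (hv v i 1) (hv v i 2) (hv v i 3) (hv v i 5)) ∧
      (MvPolynomial.eval v (eqs (i, 2)) = E6 (2 * y i)⁻¹ (x i) (v (some (Sum.inr (i, 0))))
        (v (some (Sum.inr (i, 1)))) (hv v i 1) (hv v i 2) (hv v i 3) (hv v i 6)) := by
    intro v i
    refine ⟨?_, ?_, ?_⟩
    · simp only [eqs, if_true, E4, B1, B2, B3, map_add, map_sub, map_mul, map_pow, map_ofNat, evh,
        ev1, ev2, evw, evc]
    · simp only [eqs, E5, B1, B2, B3, map_add, map_sub, map_mul, map_pow, map_ofNat, evh,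
        ev1, ev2, evw, evc, if_true, one_ne_zero, if_false]
    · have h20 : ((2 : Fin 3) = 0) = False := by decide
      have h21 : ((2 : Fin 3) = 1) = False := by decide
      simp only [eqs, E6, B1, B2, B3, map_add, map_sub, map_mul, map_pow, map_ofNat, evh,
        ev1, ev2, evw, evc, h20, h21, if_false]
  have hHone : ∀ μ : Fin m → k, (∀ s, μ s = 0) → HH μ = 1 := by
    intro μ hμ
    unfold HH
    apply Finset.prod_eq_one
    intro s _
    rw [hμ s]; simp
  have hv0 : ∀ i n, n ≠ 0 → hv 0 i n = 0 := by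
    intro i n hn
    simp only [hv, Rv]
    have h1 : HH (fun s => if i = i0 ∧ s = s0 then (0 : σ → k) none
        else l i s (fun j => (0 : σ → k) (some (Sum.inl j)))) = 1 := by
      apply hHone
      intro s
      beta_reduce
      split_ifs
      · rfl
      · exact map_zero (l i s)
    rw [RR, h1, PX]
    simp [coeff_C, hn]
  obtain ⟨e⟩ : Nonempty (Fin (Fintype.card (ι × Fin 3)) ≃ ι × Fin 3) :=
    ⟨(Fintype.equivFin (ι × Fin 3)).symm⟩
  obtain ⟨v, hv1, hv2⟩ := Pool.Agent.Helper71.SE.exists_common_zero (K := k) (ι := σ)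
    (fun j => eqs (e j)) (by
      intro j
      obtain ⟨i, t⟩ := e j
      have h1 : hv 0 i 1 = 0 := hv0 i 1 (by norm_num)
      have h2 : hv 0 i 2 = 0 := hv0 i 2 (by norm_num)
      have h3 : hv 0 i 3 = 0 := hv0 i 3 (by norm_num)
      have h4 : hv 0 i 4 = 0 := hv0 i 4 (by norm_num)
      have h5 : hv 0 i 5 = 0 := hv0 i 5 (by norm_num)
      have h6 : hv 0 i 6 = 0 := hv0 i 6 (by norm_num)
      obtain ⟨r1, r2, r3⟩ := evE 0 i
      fin_cases t
      · refine r1.trans ?_
        simp [E4, B1, B2, B3, h1, h2, h3, h4]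
      · refine r2.trans ?_
        simp [E5, B1, B2, B3, h1, h2, h3, h5]
      · refine r3.trans ?_
        simp [E6, B1, B2, B3, h1, h2, h3, h6])
    (by
      rw [Nat.card_eq_fintype_card]
      simp only [σ, Fintype.card_option, Fintype.card_sum, Fintype.card_prod, Fintype.card_fin]
      omega)
  have hEq : ∀ p, MvPolynomial.eval v (eqs p) = 0 := by
    intro p
    have := hv2 (e.symm p)
    simpa using this
  let q : ι → k := fun j => v (some (Sum.inl j))
  let κ : k := v none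
  let A : ι → k[X] := fun i => PX (x i) (v (some (Sum.inr (i, 0)))) (v (some (Sum.inr (i, 1))))
  let B : ι → k[X] := fun i => PY (y i)
    (B1 (2 * y i)⁻¹ (x i) (v (some (Sum.inr (i, 0)))) (hv v i 1))
    (B2 (2 * y i)⁻¹ (x i) (v (some (Sum.inr (i, 0)))) (v (some (Sum.inr (i, 1)))) (hv v i 1)
      (hv v i 2))
    (B3 (2 * y i)⁻¹ (x i) (v (some (Sum.inr (i, 0)))) (v (some (Sum.inr (i, 1)))) (hv v i 1)
      (hv v i 2) (hv v i 3))
  have hAB : ∀ i, B i ^ 2 = A i ^ 3 +
      C a * HH (fun s => if i = i0 ∧ s = s0 then κ else l i s q) ^ e4 * A i +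
      C b * HH (fun s => if i = i0 ∧ s = s0 then κ else l i s q) ^ e6 := by
    intro i
    obtain ⟨r1, r2, r3⟩ := evE v i
    rw [hEq] at r1 r2 r3
    have h2y : 2 * y i * (2 * y i)⁻¹ = 1 := mul_inv_cancel₀ (mul_ne_zero two_ne_zero (hy i))
    have := key_identity (2 * y i)⁻¹ (x i) (y i) _ _ (a * x i + b) _ _ _ _ _ _ h2y
      (by rw [hxy i]; ring) r1.symm r2.symm r3.symm
    have h2 := expand6 (RR_natDegree_le a b (x i) (v (some (Sum.inr (i, 0))))
      (v (some (Sum.inr (i, 1)))) h4 h6 (fun s => if i = i0 ∧ s = s0 then v none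
        else l i s (fun j => v (some (Sum.inl j)))))
    rw [RR_eval_zero] at h2
    rw [add_assoc]
    change _ = A i ^ 3 + Rv v i
    rw [show Rv v i = _ from h2]
    exact this
  refine ⟨q, κ, A, B, ?_, ?_, hAB⟩
  · intro hq
    apply hv1
    have hl : ∀ i s, l i s q = 0 := by intro i s; rw [hq]; exact map_zero _
    have hB0 : ∀ i, (B i).eval 0 ≠ 0 := by
      intro i
      have : (B i).eval 0 = y i := by simp [B, PY]
      rw [this]; exact hy i
    have hAi : ∀ i, (∃ x0, A i = C x0) → v (some (Sum.inr (i, 0))) = 0 ∧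
        v (some (Sum.inr (i, 1))) = 0 := by
      rintro i ⟨x0, hi⟩
      have h1 : (A i).coeff 1 = v (some (Sum.inr (i, 0))) := by
        simp [A, PX, coeff_C, coeff_X_pow]
      have h2 : (A i).coeff 2 = v (some (Sum.inr (i, 1))) := by
        simp [A, PX, coeff_X_pow]
      rw [← h1, ← h2, hi]
      simp
    have hother : ∀ i, (i = i0 → κ = 0) → ∃ x0, A i = C x0 := by
      intro i hi
      have h1 := hAB i
      have h2 : HH (fun s => if i = i0 ∧ s = s0 then κ else l i s q) = 1 := by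
        apply hHone
        intro s
        beta_reduce
        split_ifs with hs
        · exact hi hs.1
        · exact hl i s
      rw [h2, one_pow, one_pow, mul_one, mul_one] at h1
      obtain ⟨x0, y0, h3, _⟩ := const_of_eq hE h1
      exact ⟨x0, h3⟩
    have h00 := hAB i0
    have h01 : HH (fun s => if i0 = i0 ∧ s = s0 then κ else l i0 s q) = 1 + C κ * X := by
      unfold HH
      rw [Finset.prod_eq_single s0]
      · simp
      · intro s _ hs
        beta_reduce
        rw [if_neg (fun h => hs h.2), hl]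
        simp
      · intro h; exact absurd (Finset.mem_univ _) h
    rw [h01] at h00
    have hk : κ = 0 := const_of_eq' hE hm h4 h6 h00 (hB0 i0)
    funext s
    match s with
    | none => exact hk
    | some (Sum.inl j) => exact congrFun hq j
    | some (Sum.inr (i, t)) =>
      obtain ⟨g1, g2⟩ := hAi i (hother i (fun _ => hk))
      fin_cases t
      · exact g1
      · exact g2
  · intro i
    constructor
    · simp [A, PX]
    · simp [B, PY]

end Main

end Pool.Agent.Helper94.EW
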