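import Mathlib
import Pool.Agent.Helper94.EW.Sections

/-!
The pencil of divisors and the sections over it.
-/

set_option autoImplicit false

namespace Pool.Agent.Helper94.EW

open Polynomial

universe u

variable {k : Type u} [Field k]

/-- The factorisation of a polynomial, the roots being numbered. -/
lemma exists_factors [IsAlgClosed k] (f : k[X]) : ∃ (d : ℕ) (r : Fin d → k), d = f.natDegree ∧
    f = C f.leadingCoeff * ∏ j, (X - C (r j)) := by
  have hs := IsAlgClosed.splits f
  have hcard : f.roots.toList.length = f.natDegree := by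
    rw [Multiset.length_toList]
    exact hs.natDegree_eq_card_roots.symm
  refine ⟨f.natDegree, fun j => f.roots.toList.get (j.cast hcard.symm), rfl, ?_⟩
  have h1 : (∏ j : Fin f.natDegree, (X - C (f.roots.toList.get (j.cast hcard.symm)))) =
      (f.roots.map (fun a => X - C a)).prod := by
    conv_rhs => rw [← Multiset.coe_toList f.roots, Multiset.map_coe, Multiset.prod_coe]
    rw [← List.prod_ofFn]
    congr 1
    apply List.ext_get
    · simp [hcard]
    · intro n h1 h2
      simp
  rw [h1]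
  exact hs.eq_prod_roots

/-- The parametrisation of the pencil. -/
lemma exists_param [IsAlgClosed k] (κ : k) {m : ℕ} (hm : m ≠ 0) : ∃ (ρ ω : k[X]) (w0 : k),
    1 + C κ * ρ = ω ^ m ∧ ρ.eval w0 = 0 ∧ ω.eval w0 = 1 ∧ ∀ t, ∃ w, ρ.eval w = t := by
  by_cases hk : κ = 0
  · refine ⟨X, 1, 0, ?_, by simp, by simp, fun t => ⟨t, by simp⟩⟩
    rw [hk]; simp
  · refine ⟨C κ⁻¹ * (X ^ m - 1), X, 1, ?_, by simp, by simp, fun t => ?_⟩
    · rw [← mul_assoc, ← C_mul, mul_inv_cancel₀ hk]; simp
    · obtain ⟨w, hw⟩ := IsAlgClosed.exists_pow_nat_eq (1 + κ * t) (Nat.pos_of_ne_zero hm)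
      refine ⟨w, ?_⟩
      rw [eval_mul, eval_C, eval_sub, eval_pow, eval_X, eval_one, hw]
      field_simp
      ring

lemma prod_slots {M d : ℕ} (hd : d < M) (g : ℕ → k[X]) (a : k[X]) (h : Fin d → k[X])
    (h1 : g (M - 1) = a) (h2 : ∀ j : Fin d, g j = h j) (h3 : ∀ n, d ≤ n → n < M - 1 → g n = 1) :
    ∏ t : Fin M, g t = a * ∏ j, h j := by
  rw [Finset.prod_range (fun n => g n) |>.symm]
  have hM : M = (M - 1) + 1 := by omega
  rw [hM, Finset.prod_range_succ, h1, mul_comm]
  congr 1
  have h4 : ∏ n ∈ Finset.range (M - 1), g n = ∏ n ∈ Finset.range d, g n := by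
    symm
    apply Finset.prod_subset
    · intro n hn
      rw [Finset.mem_range] at hn ⊢
      omega
    · intro n hn hn'
      rw [Finset.mem_range] at hn hn'
      exact h3 n (by omega) hn
  rw [h4, Finset.prod_range]
  exact Finset.prod_congr rfl (fun j _ => h2 j)

lemma prod_flip {R : Type*} [CommRing R] {N : ℕ} (a : Fin N → R) (b : R) :
    ∏ i, (a i - b) = (-1) ^ N * ∏ i, (b - a i) := by
  have : ∀ i, a i - b = (-1) * (b - a i) := fun i => by ring
  simp only [this]
  rw [Finset.prod_mul_distrib, Finset.prod_const, Finset.card_univ, Fintype.card_fin]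

/-- The polynomial with given coefficients. -/
noncomputable def qpoly {N : ℕ} (q : Fin N → k) : k[X] := ∑ n : Fin N, C (q n) * X ^ (n : ℕ)

lemma qpoly_degree {N : ℕ} (q : Fin N → k) : (qpoly q).degree < N := by
  unfold qpoly
  refine (degree_sum_le _ _).trans_lt ?_
  rw [Finset.sup_lt_iff]
  · intro n _
    refine (degree_C_mul_X_pow_le _ _).trans_lt ?_
    exact_mod_cast n.2
  · exact WithBot.bot_lt_coe N

lemma qpoly_ne {N : ℕ} {q : Fin N → k} (hq : q ≠ 0) : qpoly q ≠ 0 := by
  obtain ⟨n, hn⟩ := Function.ne_iff.mp hq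
  intro h0
  apply hn
  have h1 := congrArg (fun p : k[X] => p.coeff n) h0
  simp only [qpoly, finsetSum_coeff, coeff_C_mul, coeff_X_pow, coeff_zero] at h1
  rw [Finset.sum_eq_single n] at h1
  · simpa using h1
  · intro b _ hb
    rw [if_neg, mul_zero]
    intro h2
    exact hb (Fin.ext h2.symm)
  · intro h; exact absurd (Finset.mem_univ _) h

lemma qpoly_eval {N : ℕ} (q : Fin N → k) (r : k) : (qpoly q).eval r = ∑ n : Fin N, q n * r ^ (n : ℕ) := by
  simp [qpoly, eval_finsetSum]

variable [IsAlgClosed k] [CharZero k]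

/-- Block EX. -/
theorem exists_pencil
    {a b : k} (hE : 4 * a ^ 3 + 27 * b ^ 2 ≠ 0) {m e4 e6 : ℕ} (hm0 : m ≠ 0) (hm : Even m)
    (h4 : a = 0 ∨ m * e4 = 4) (h6 : b = 0 ∨ m * e6 = 6)
    {N : ℕ} (hN : 0 < N) {f : k[X]} (hf0 : f ≠ 0) (hf : f.natDegree < m * N)
    (hroots : ∀ q : k[X], q ≠ 0 → q.degree < N → ∃ r, f.IsRoot r ∧ q.eval r ≠ 0)
    (T : Fin N → k) (hT : ∀ i, f.eval (T i) ≠ 0)
    (x y : Fin N → k) (hxy : ∀ i, y i ^ 2 = x i ^ 3 + a * x i + b) (hy : ∀ i, y i ≠ 0) :
    ∃ (q ρ ω D : k[X]) (w0 w1 r : k) (H P Q : Fin N → k[X]),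
      q.degree < N ∧ w0 ≠ w1 ∧ ρ.eval w0 = 0 ∧ ω.eval w0 = 1 ∧
      (∀ i, (H i).eval w0 = 1 ∧ (P i).eval w0 = x i ∧ (Q i).eval w0 = y i) ∧
      (∀ i, Q i ^ 2 = P i ^ 3 + C a * H i ^ e4 * P i + C b * H i ^ e6) ∧
      ω ^ m * D = ∏ i, H i ∧
      (∀ (K : Type u) [Field K] [Algebra k K] (w : K) (t : Fin N → K),
        (∏ i, (X - C (t i)) = (∏ i, (X - C (T i))).map (algebraMap k K) +
          C (aeval w ρ) * q.map (algebraMap k K)) →
        ∏ i, aeval (t i) f = algebraMap k K (∏ i, f.eval (T i)) * aeval w D) ∧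
      f.eval r = 0 ∧ ∏ i, (r - T i) + ρ.eval w1 * q.eval r = 0 := by
  classical
  obtain ⟨d, r, hd, hr⟩ := exists_factors f
  rw [← hd] at hf
  have hfr : ∀ j, f.eval (r j) = 0 := by
    intro j
    rw [hr, eval_mul, eval_prod, Finset.prod_eq_zero (Finset.mem_univ j) (by simp), mul_zero]
  have hF : ∀ s, f.eval s = 0 → ∏ i, (s - T i) ≠ 0 := by
    intro s hs
    rw [Finset.prod_ne_zero_iff]
    intro i _ h0
    apply hT i
    rw [← sub_eq_zero.mp h0]
    exact hs
  let F0 : Fin d → k := fun j => ∏ i, (r j - T i)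
  have hF0 : ∀ j, F0 j ≠ 0 := fun j => hF _ (hfr j)
  -- the linear forms
  let lin : Fin d → (Fin N → k) →ₗ[k] k := fun j =>
    (F0 j)⁻¹ • ∑ n : Fin N, (r j) ^ (n : ℕ) • LinearMap.proj n
  have hlin : ∀ j q, lin j q = (F0 j)⁻¹ * (qpoly q).eval (r j) := by
    intro j q
    rw [qpoly_eval]
    simp only [lin, LinearMap.smul_apply, LinearMap.sum_apply, LinearMap.proj_apply, smul_eq_mul]
    congr 1
    exact Finset.sum_congr rfl (fun n _ => mul_comm _ _)
  let e : Fin N × Fin m ≃ Fin (N * m) := finProdFinEquiv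
  have hM : 0 < N * m := Nat.mul_pos hN (Nat.pos_of_ne_zero hm0)
  have hdM : d < N * m := by rw [mul_comm]; exact hf
  let last : Fin (N * m) := ⟨N * m - 1, by omega⟩
  let l : Fin N → Fin m → (Fin N → k) →ₗ[k] k := fun i s =>
    if h : (e (i, s)).val < d then lin ⟨_, h⟩ else 0
  obtain ⟨q, κ, A, B, hq, hAB0, hAB⟩ := exists_sections hE hm h4 h6 (e.symm last).1
    (e.symm last).2 x y hxy hy l
  let H : Fin N → k[X] := fun i =>
    HH (fun s => if i = (e.symm last).1 ∧ s = (e.symm last).2 then κ else l i s q)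
  have hprod : ∏ i, H i = (1 + C κ * X) * ∏ j, (1 + C (lin j q) * X) := by
    let g : ℕ → k[X] := fun n => if n = N * m - 1 then 1 + C κ * X
      else if h : n < d then 1 + C (lin ⟨n, h⟩ q) * X else 1
    have h1 : ∏ i, H i = ∏ t : Fin (N * m), g t := by
      rw [← Equiv.prod_comp e, Fintype.prod_prod_type]
      refine Finset.prod_congr rfl (fun i _ => ?_)
      change ∏ s, (1 + C (if i = (e.symm last).1 ∧ s = (e.symm last).2 then κ else l i s q) * X) = _
      refine Finset.prod_congr rfl (fun s _ => ?_)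
      have h2 : (i = (e.symm last).1 ∧ s = (e.symm last).2) ↔ ((e (i, s) : Fin (N * m)) : ℕ) = N * m - 1 := by
        constructor
        · rintro ⟨h3, h4⟩
          have : e (i, s) = last := by
            rw [h3, h4, Prod.mk.eta, Equiv.apply_symm_apply]
          rw [this]
        · intro h3
          have : e (i, s) = last := Fin.ext h3
          have h5 : (i, s) = e.symm last := by rw [← this, Equiv.symm_apply_apply]
          rw [← h5]
          exact ⟨rfl, rfl⟩
      simp only [g, l]
      by_cases h3 : i = (e.symm last).1 ∧ s = (e.symm last).2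
      · rw [if_pos h3, if_pos (h2.mp h3)]
      · rw [if_neg h3, if_neg (fun h => h3 (h2.mpr h))]
        split_ifs with h5
        · rfl
        · simp
    rw [h1]
    apply prod_slots hdM g _ _
    · simp [g]
    · intro j
      have := j.2
      simp only [g]
      rw [if_neg (by omega), dif_pos j.2]
    · intro n hn hn'
      simp only [g]
      rw [if_neg (by omega), dif_neg (by omega)]
  obtain ⟨ρ, ω, w0, hρω, hρ0, hω0, hρs⟩ := exists_param κ hm0
  obtain ⟨r1, hr1, hr1'⟩ := hroots (qpoly q) (qpoly_ne hq) (qpoly_degree q)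
  have hr1'' : f.eval r1 = 0 := hr1
  obtain ⟨w1, hw1⟩ := hρs (-(∏ i, (r1 - T i)) / (qpoly q).eval r1)
  refine ⟨qpoly q, ρ, ω, ∏ j, (1 + C (lin j q) * ρ), w0, w1, r1, fun i => (H i).comp ρ,
    fun i => (A i).comp ρ, fun i => (B i).comp ρ, qpoly_degree q, ?_, hρ0, hω0, ?_, ?_, ?_, ?_,
    hr1'', ?_⟩
  · rintro rfl
    rw [hρ0] at hw1
    have h1 := hF r1 hr1''
    exact div_ne_zero (neg_ne_zero.mpr h1) hr1' hw1.symm
  · intro i
    refine ⟨?_, ?_, ?_⟩
    · rw [eval_comp, hρ0]
      exact HH_eval_zero _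
    · rw [eval_comp, hρ0]
      exact (hAB0 i).1
    · rw [eval_comp, hρ0]
      exact (hAB0 i).2
  · intro i
    have := congrArg (fun p : k[X] => p.comp ρ) (hAB i)
    simpa only [pow_comp, add_comp, mul_comp, C_comp] using this
  · have := congrArg (fun p : k[X] => p.comp ρ) hprod
    simp only [prod_comp, mul_comp, add_comp, one_comp, C_comp, X_comp] at this
    rw [← hρω, ← this]
  · intro K _ _ w t ht
    have h1 : ∀ j, ∏ i, (algebraMap k K (r j) - t i) = algebraMap k K (F0 j) *
        (1 + algebraMap k K (lin j q) * aeval w ρ) := by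
      intro j
      have h2 := congrArg (fun p : K[X] => p.eval (algebraMap k K (r j))) ht
      simp only [eval_prod, eval_sub, eval_X, eval_C, eval_add, eval_mul, Polynomial.map_prod,
        Polynomial.map_sub, map_X, map_C, eval_map_apply] at h2
      have e1 : algebraMap k K (F0 j) = ∏ i, (algebraMap k K (r j) - algebraMap k K (T i)) := by
        simp only [F0, map_prod, map_sub]
      have e2 : algebraMap k K ((qpoly q).eval (r j)) =
          algebraMap k K (F0 j) * algebraMap k K (lin j q) := by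
        rw [← map_mul, hlin, mul_inv_cancel_left₀ (hF0 j)]
      rw [h2, ← e1, e2]
      ring
    have h3 : ∀ j, ∏ i, (t i - algebraMap k K (r j)) = algebraMap k K (∏ i, (T i - r j)) *
        (1 + algebraMap k K (lin j q) * aeval w ρ) := by
      intro j
      rw [prod_flip, prod_flip T, h1 j, map_mul, map_pow, map_neg, map_one]
      ring
    have h4 : ∀ s : K, aeval s f = algebraMap k K f.leadingCoeff *
        ∏ j, (s - algebraMap k K (r j)) := by
      intro s
      conv_lhs => rw [hr]
      simp only [map_mul, aeval_C, map_prod, map_sub, aeval_X]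
    have h5 : ∀ s : k, f.eval s = f.leadingCoeff * ∏ j, (s - r j) := by
      intro s
      conv_lhs => rw [hr]
      simp only [eval_mul, eval_C, eval_prod, eval_sub, eval_X]
    simp only [h4, h5]
    rw [Finset.prod_mul_distrib, Finset.prod_mul_distrib, Finset.prod_comm,
      Finset.prod_congr rfl (fun j _ => h3 j), Finset.prod_mul_distrib, map_mul, ← map_prod,
      ← map_prod]
    have h6 : aeval w (∏ j, (1 + C (lin j q) * ρ)) =
        ∏ j, (1 + algebraMap k K (lin j q) * aeval w ρ) := by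
      simp only [map_prod, map_add, map_one, map_mul, aeval_C]
    rw [h6, mul_assoc]
    congr 2
    rw [Finset.prod_comm]
  · rw [hw1]
    field_simp
    ring

end Pool.Agent.Helper94.EW
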